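import Pool.Agent.Helper89.Vol.Goals

set_option autoImplicit false

namespace Pool.Agent.Helper44.Vol.PkUPG

open MeasureTheory Set Pool.Agent.Helper86.Poly Pool.Agent.Helper89.Vol

theorem thm (h1 : G_D1) (h2 : G_D2) (h3 : G_D3) (h5 : G_D5) (hT : G_TW) (hC : G_COV2)
    (hF : G_FIN) (hP : G_PATH) (hN : G_NUM) : G_UPG := by
  intro C hCf x hx hgen
  have anti : ∀ i j, Dt x i j = -Dt x j i := (h1 x).1
  have diag : ∀ i, Dt x i i = 0 := fun i => by
    have := anti i i
    linarith
  obtain ⟨σ, s, hs, s0, s1, hpos⟩ := hT (Dt x) anti hgen (h2 x)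
  have h1C : 1 ≤ C := by
    have h := hCf (379 / 1250) ⟨by norm_num, by norm_num⟩
    have h' := hN.2.1
    linarith
  obtain ⟨c, hcdef⟩ : ∃ c : ℝ, c = ((Equiv.Perm.sign σ : ℤ) : ℝ) := ⟨_, rfl⟩
  have hc : c = 1 ∨ c = -1 := by
    rcases Int.units_eq_one_or (Equiv.Perm.sign σ) with h | h
    · left
      rw [hcdef, h]
      norm_num
    · right
      rw [hcdef, h]
      norm_num
  have hcc : c * c = 1 := by
    rcases hc with h | h <;> rw [h] <;> norm_num
  have key : ∀ m n, c * Dt (x ∘ σ) m n = Dt x (σ m) (σ n) := by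
    intro m n
    rw [h3 x σ m n, ← hcdef, ← mul_assoc, hcc, one_mul]
  have ssq : ∀ i, s i * s i = 1 := by
    intro i
    rcases hs i with h | h <;> rw [h] <;> norm_num
  have hab : 0 < Dt x (σ 0) (σ 1) := by
    have := hpos 0 1 (by decide)
    rw [s0, s1] at this
    linarith
  -- signs of the two first rows
  have r0 : ∀ m : Fin 6, m ≠ 0 → 0 < s m * Dt x (σ 0) (σ m) := by
    intro m hm
    have := hpos 0 m (Fin.pos_of_ne_zero hm)
    rw [s0] at this
    linarith
  have r1 : ∀ m : Fin 6, m ≠ 0 → m ≠ 1 → 0 < s m * Dt x (σ 1) (σ m) := by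
    intro m hm hm1
    have hlt : (1 : Fin 6) < m := by
      have h0 : (0 : Fin 6) < m := Fin.pos_of_ne_zero hm
      have h00 : 0 < m.val := h0
      have h01 : m.val ≠ 1 := fun h => hm1 (Fin.ext h)
      have : (1 : Fin 6).val < m.val := by
        have : (1 : Fin 6).val = 1 := rfl
        omega
      exact this
    have := hpos 1 m hlt
    rw [s1] at this
    linarith
  have htw : ∀ k, k ≠ σ 0 → k ≠ σ 1 → 0 < Dt x (σ 0) k * Dt x (σ 1) k := by
    intro k hk0 hk1
    obtain ⟨m, rfl⟩ := σ.surjective k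
    have hm0 : m ≠ 0 := fun h => hk0 (by rw [h])
    have hm1 : m ≠ 1 := fun h => hk1 (by rw [h])
    have e0 := r0 m hm0
    have e1 := r1 m hm0 hm1
    have e2 := mul_pos e0 e1
    have : s m * Dt x (σ 0) (σ m) * (s m * Dt x (σ 1) (σ m)) =
        (s m * s m) * (Dt x (σ 0) (σ m) * Dt x (σ 1) (σ m)) := by ring
    rw [this, ssq, one_mul] at e2
    exact e2
  have hcov := hC x (Dt x) (σ 0) (σ 1) anti hgen (h1 x).2.1 (h1 x).2.2 hab htw
  have hdist : ∀ i j, dist ((x ∘ σ) i) ((x ∘ σ) j) ≤ 1 := fun i j => hx _ _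
  have hfin := hF C h1C (hP C hCf) (x ∘ σ) hdist c s hc hs s0 s1
  -- the real double sum
  have hreal : (∑ i, ∑ j, if i ≠ σ 1 ∧ 0 < Dt x (σ 0) i ∧ 0 < Dt x j (σ 0) ∧ 0 < Dt x i j then
      Dt x i j else 0) ≤ C := by
    refine le_trans ?_ hfin
    rw [← Equiv.sum_comp σ]
    refine Finset.sum_le_sum fun m _ => ?_
    rw [← Equiv.sum_comp σ]
    refine Finset.sum_le_sum fun n _ => ?_
    by_cases h : σ m ≠ σ 1 ∧ 0 < Dt x (σ 0) (σ m) ∧ 0 < Dt x (σ n) (σ 0) ∧
        0 < Dt x (σ m) (σ n)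
    · rw [if_pos h]
      obtain ⟨g1, g2, g3, g4⟩ := h
      have hm1 : m ≠ 1 := fun h => g1 (by rw [h])
      have hm0 : m ≠ 0 := by
        intro h
        rw [h, diag] at g2
        exact lt_irrefl _ g2
      have hn0 : n ≠ 0 := by
        intro h
        rw [h, diag] at g3
        exact lt_irrefl _ g3
      have hn1 : n ≠ 1 := by
        intro h
        rw [h, anti] at g3
        linarith
      have sm : s m = 1 := by
        rcases hs m with h | h
        · exact h
        · have := r0 m hm0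
          rw [h] at this
          linarith
      have sn : s n = -1 := by
        rcases hs n with h | h
        · have := r0 n hn0
          rw [h] at this
          rw [anti] at g3
          linarith
        · exact h
      have hnm : n < m := by
        rcases lt_trichotomy n m with h | h | h
        · exact h
        · rw [h, diag] at g4
          exact absurd g4 (lt_irrefl _)
        · have := hpos m n h
          rw [sm, sn] at this
          linarith
      have h2n : (2 : Fin 6) ≤ n := by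
        have a0 : n.val ≠ 0 := fun h => hn0 (Fin.ext h)
        have a1 : n.val ≠ 1 := fun h => hn1 (Fin.ext h)
        have : (2 : Fin 6).val ≤ n.val := by
          have : (2 : Fin 6).val = 2 := rfl
          omega
        exact this
      rw [if_pos ⟨hnm, h2n, sm, sn⟩, key]
    · rw [if_neg h]
      split_ifs with h'
      · obtain ⟨q1, q2, q3, q4⟩ := h'
        rw [key]
        have := hpos n m q1
        rw [q3, q4, anti] at this
        linarith
      · exact le_refl _
  -- the measure side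
  have hterm : ∀ i j, (6 : ENNReal) * (if i ≠ σ 1 ∧ 0 < Dt x (σ 0) i ∧ 0 < Dt x j (σ 0) ∧
      0 < Dt x i j then volume (convexHull ℝ (x '' {k | k ≠ i ∧ k ≠ j})) else 0) =
      ENNReal.ofReal (if i ≠ σ 1 ∧ 0 < Dt x (σ 0) i ∧ 0 < Dt x j (σ 0) ∧ 0 < Dt x i j then
        Dt x i j else 0) := by
    intro i j
    by_cases h : i ≠ σ 1 ∧ 0 < Dt x (σ 0) i ∧ 0 < Dt x j (σ 0) ∧ 0 < Dt x i j
    · rw [if_pos h, if_pos h]
      have hij : i ≠ j := by
        intro e
        have := h.2.2.2
        rw [e, diag] at this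
        exact lt_irrefl _ this
      rw [h5 x i j hij, abs_of_pos h.2.2.2]
    · rw [if_neg h, if_neg h]
      simp
  have hnn : ∀ i j, 0 ≤ (if i ≠ σ 1 ∧ 0 < Dt x (σ 0) i ∧ 0 < Dt x j (σ 0) ∧ 0 < Dt x i j then
        Dt x i j else 0) := by
    intro i j
    split_ifs with h
    · exact h.2.2.2.le
    · exact le_refl _
  calc 6 * volume (convexHull ℝ (range x))
      ≤ 6 * ∑ i, ∑ j, (if i ≠ σ 1 ∧ 0 < Dt x (σ 0) i ∧ 0 < Dt x j (σ 0) ∧ 0 < Dt x i j then
          volume (convexHull ℝ (x '' {k | k ≠ i ∧ k ≠ j})) else 0) := by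
        gcongr
    _ = ∑ i, ∑ j, ENNReal.ofReal (if i ≠ σ 1 ∧ 0 < Dt x (σ 0) i ∧ 0 < Dt x j (σ 0) ∧
          0 < Dt x i j then Dt x i j else 0) := by
        rw [Finset.mul_sum]
        refine Finset.sum_congr rfl fun i _ => ?_
        rw [Finset.mul_sum]
        exact Finset.sum_congr rfl fun j _ => hterm i j
    _ = ENNReal.ofReal (∑ i, ∑ j, if i ≠ σ 1 ∧ 0 < Dt x (σ 0) i ∧ 0 < Dt x j (σ 0) ∧
          0 < Dt x i j then Dt x i j else 0) := by
        rw [ENNReal.ofReal_sum_of_nonneg fun i _ => Finset.sum_nonneg fun j _ => hnn i j]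
        refine Finset.sum_congr rfl fun i _ => ?_
        rw [ENNReal.ofReal_sum_of_nonneg fun j _ => hnn i j]
    _ ≤ ENNReal.ofReal C := ENNReal.ofReal_le_ofReal hreal

end Pool.Agent.Helper44.Vol.PkUPG
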